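import Pool.Agent.H21.OrthoT2

namespace Pool.Agent.Results.MP_adc54a_gt.Sharp

open Set Pool.Agent.H21.Ortho

theorem result :
    ∃ (X Y : Type) (_ : TopologicalSpace X) (_ : TopologicalSpace Y) (f : X → Y),
      T1Space X ∧ T1Space Y ∧ Continuous f ∧ IsClosedMap f ∧ Function.Surjective f ∧
      (∀ y, (f ⁻¹' {y}).Finite) ∧ Ortho X ∧ ¬ Ortho Y :=
  ⟨_, _, _, _, Pool.Agent.H21.OrthoT.f, inferInstance, inferInstance,
    Pool.Agent.H21.OrthoT.f_cont,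
    Pool.Agent.H21.OrthoT.f_closed, Pool.Agent.H21.OrthoT.f_surj,
    Pool.Agent.H21.OrthoT.f_fin, Pool.Agent.H21.OrthoT.ortho_X,
    Pool.Agent.H21.OrthoT.not_ortho_Y⟩

end Pool.Agent.Results.MP_adc54a_gt.Sharp
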